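import Pool.Agent.Helper165.Main

set_option autoImplicit false

open AlgebraicGeometry Pool.Agent.Helper165

universe u

/-- For every prime `p` and every field `k` of characteristic `p`, the quotient
`X = Spec k[V]^G` of `V = 𝔸^{2p}` by `G = ℤ/p` acting through `J^{⊕ p}` admits a crepant
resolution. -/
theorem Pool.Agent.Results.MP_d95e25_ag.CrepantResolution.result
    (p : ℕ) [Fact p.Prime] (k : Type u) [Field k] [CharP k p] :
    ∃ (Y : Scheme.{u}) (_ : IsIntegral Y) (f : Y ⟶ quotientScheme p k),
      IsCrepantResolution (2 * p) f (quotientStructure p k) :=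
  ⟨resY p k, resY_isIntegral p k, resF p k, resF_isCrepantResolution p k⟩
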